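import Pool.Agent.Lib.MP_1a91b9_nuI.Ho.Isg

/-!
# The isogenies of degree 2 and 3 are homomorphisms
-/

set_option autoImplicit false

namespace Pool.Agent.Lib.MP_1a91b9_nuI

open WeierstrassCurve

section
variable {F K : Type*} [Field F] [Field K]

theorem Rel2.map {W W' : WeierstrassCurve F} (h : Rel2 W W') (f : F →+* K) :
    Rel2 (W.map f) (W'.map f) where
  two := by
    have h1 := (map_ne_zero f).2 h.two
    rwa [map_ofNat] at h1
  a₁ := by rw [map_a₁, h.a₁, map_zero]
  a₃ := by rw [map_a₃, h.a₃, map_zero]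
  a₆ := by rw [map_a₆, h.a₆, map_zero]
  a₁' := by rw [map_a₁, h.a₁', map_zero]
  a₃' := by rw [map_a₃, h.a₃', map_zero]
  a₆' := by rw [map_a₆, h.a₆', map_zero]
  a₂' := by rw [map_a₂, map_a₂, h.a₂', map_mul, map_neg, map_ofNat]
  a₄' := by rw [map_a₄, map_a₂, map_a₄, h.a₄', map_sub, map_mul, map_pow, map_ofNat]
  b0 := by
    rw [map_a₄]
    exact (map_ne_zero f).2 h.b0
  b0' := by
    rw [map_a₄]
    exact (map_ne_zero f).2 h.b0'

theorem Rel3.map {W W' : WeierstrassCurve F} (h : Rel3 W W') (f : F →+* K) :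
    Rel3 (W.map f) (W'.map f) where
  two := by
    have h1 := (map_ne_zero f).2 h.two
    rwa [map_ofNat] at h1
  three := by
    have h1 := (map_ne_zero f).2 h.three
    rwa [map_ofNat] at h1
  a₁ := by rw [map_a₁, h.a₁, map_zero]
  a₃ := by rw [map_a₃, h.a₃, map_zero]
  a₁' := by rw [map_a₁, h.a₁', map_zero]
  a₃' := by rw [map_a₃, h.a₃', map_zero]
  a₂' := by rw [map_a₂, map_a₂, h.a₂']
  a₄' := by rw [map_a₄, map_a₄, h.a₄', map_mul, map_neg, map_ofNat]
  a₆' := by
    rw [map_a₆, map_a₂, map_a₄, map_a₆, h.a₆']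
    simp only [map_sub, map_mul, map_neg, map_ofNat]
  rel := by
    rw [map_a₂, map_a₄, map_a₆, ← map_pow, ← h.rel]
    simp only [map_mul, map_ofNat]
  c0 := by
    rw [map_a₆]
    exact (map_ne_zero f).2 h.c0
  d0 := by
    have h1 := (map_ne_zero f).2 h.d0
    rw [map_a₄, map_a₆]
    simpa only [map_sub, map_mul, map_pow, map_ofNat] using h1

theorem phi2_add_closed [DecidableEq F] [IsAlgClosed F] {W W' : WeierstrassCurve F}
    (h : Rel2 W W') (P Q : W.toAffine.Point) : phi2 h (P + Q) = phi2 h P + phi2 h Q := by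
  have := inf_pts W h.Δ h.a₁ h.a₃
  exact hom_of_generic (phi2 h) {P | xz W P} (fin_xz W h.Δ h.a₁ h.a₃)
    (fun P hP Q => phi2_tr h P Q hP)
    (fun P Q hP hQ h1 h2 => phi2_gen h P Q hP hQ h1 h2) P Q

theorem phi3_add_closed [DecidableEq F] [IsAlgClosed F] {W W' : WeierstrassCurve F}
    (h : Rel3 W W') (P Q : W.toAffine.Point) : phi3 h (P + Q) = phi3 h P + phi3 h Q := by
  have := inf_pts W h.Δ h.a₁ h.a₃
  exact hom_of_generic (phi3 h) {P | xz W P} (fin_xz W h.Δ h.a₁ h.a₃)
    (fun P hP Q => phi3_tr h P Q hP)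
    (fun P Q hP hQ h1 h2 => phi3_gen h P Q hP hQ h1 h2) P Q

theorem phi2_add' [DecidableEq F] {W W' : WeierstrassCurve F}
    (h : Rel2 (W.baseChange F) (W'.baseChange F)) (P Q : (Affine.baseChange W F).Point) :
    phi2 h (P + Q) = phi2 h P + phi2 h Q := by
  classical
  have hΩ : Rel2 (W.baseChange (AlgebraicClosure F)) (W'.baseChange (AlgebraicClosure F)) :=
    Rel2.map (W := W) (W' := W') h (algebraMap F (AlgebraicClosure F))
  apply Affine.Point.map_injective (Algebra.ofId F (AlgebraicClosure F))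
  rw [← phi2_map h hΩ, map_add, phi2_add_closed hΩ, map_add, phi2_map h hΩ, phi2_map h hΩ]

theorem phi3_add' [DecidableEq F] {W W' : WeierstrassCurve F}
    (h : Rel3 (W.baseChange F) (W'.baseChange F)) (P Q : (Affine.baseChange W F).Point) :
    phi3 h (P + Q) = phi3 h P + phi3 h Q := by
  classical
  have hΩ : Rel3 (W.baseChange (AlgebraicClosure F)) (W'.baseChange (AlgebraicClosure F)) :=
    Rel3.map (W := W) (W' := W') h (algebraMap F (AlgebraicClosure F))
  apply Affine.Point.map_injective (Algebra.ofId F (AlgebraicClosure F))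
  rw [← phi3_map h hΩ, map_add, phi3_add_closed hΩ, map_add, phi3_map h hΩ, phi3_map h hΩ]

theorem phi2_add [DecidableEq F] {W W' : WeierstrassCurve F}
    (h : Rel2 W W') (P Q : W.toAffine.Point) : phi2 h (P + Q) = phi2 h P + phi2 h Q :=
  phi2_add' (W := W) (W' := W') h P Q

theorem phi3_add [DecidableEq F] {W W' : WeierstrassCurve F}
    (h : Rel3 W W') (P Q : W.toAffine.Point) : phi3 h (P + Q) = phi3 h P + phi3 h Q :=
  phi3_add' (W := W) (W' := W') h P Q

end

universe u

/-- the isogeny of degree 2 -/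
noncomputable def Isg.ofRel2 {F : Type u} [Field F] {W W' : WeierstrassCurve F} (h : Rel2 W W') :
    Isg W W' 2 where
  f := fun L _ _ _ => AddMonoidHom.mk' (phi2 (h.map (algebraMap F L))) (phi2_add _)
  nat := fun L L' _ _ _ _ _ _ i P =>
    phi2_map (h.map (algebraMap F L)) (h.map (algebraMap F L')) i P
  ker := fun L _ _ _ P h0 => by
    rw [two_nsmul]
    exact xz2_two (h.map (algebraMap F L)) P ((phi2_xz (h.map (algebraMap F L)) P).1 h0)
  surj := fun L _ _ _ _ => phi2_surj (h.map (algebraMap F L))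
  fin := fun L _ _ _ => (fin_xz (W.baseChange L) (h.map (algebraMap F L)).Δ
    (h.map (algebraMap F L)).a₁ (h.map (algebraMap F L)).a₃).subset fun P h0 =>
      (phi2_xz (h.map (algebraMap F L)) P).1 h0

/-- the isogeny of degree 3 -/
noncomputable def Isg.ofRel3 {F : Type u} [Field F] {W W' : WeierstrassCurve F} (h : Rel3 W W') :
    Isg W W' 3 where
  f := fun L _ _ _ => AddMonoidHom.mk' (phi3 (h.map (algebraMap F L))) (phi3_add _)
  nat := fun L L' _ _ _ _ _ _ i P =>
    phi3_map (h.map (algebraMap F L)) (h.map (algebraMap F L')) i P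
  ker := fun L _ _ _ P h0 => by
    rw [succ_nsmul, two_nsmul]
    exact xz3_three (h.map (algebraMap F L)) P ((phi3_xz (h.map (algebraMap F L)) P).1 h0)
  surj := fun L _ _ _ _ => phi3_surj (h.map (algebraMap F L))
  fin := fun L _ _ _ => (fin_xz (W.baseChange L) (h.map (algebraMap F L)).Δ
    (h.map (algebraMap F L)).a₁ (h.map (algebraMap F L)).a₃).subset fun P h0 =>
      (phi3_xz (h.map (algebraMap F L)) P).1 h0

end Pool.Agent.Lib.MP_1a91b9_nuI
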