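import Pool.Agent.Lib.MP_1a91b9_nuI.Ho.Hom

/-!
# Consequences of an isogeny: finiteness, orders, torsion points
-/

set_option autoImplicit false

namespace Pool.Agent.Lib.MP_1a91b9_nuI

open WeierstrassCurve

universe u

section
variable {F : Type u} [Field F] {W W' : WeierstrassCurve F} {n : ℕ}

theorem Isg.finite (a : Isg W' W n) (h : Finite W.toAffine.Point) :
    Finite W'.toAffine.Point := by
  classical
  have h1 : Finite (Affine.baseChange W F).Point := h
  have h2 : (Set.univ : Set (Affine.baseChange W' F).Point).Finite := by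
    have h3 : (Set.univ : Set (Affine.baseChange W' F).Point) ⊆
        ⋃ Q ∈ (Set.univ : Set (Affine.baseChange W F).Point), {P | a.f F P = Q} := by
      intro P _
      exact Set.mem_biUnion (x := a.f F P) (Set.mem_univ _) rfl
    exact (Set.Finite.biUnion Set.finite_univ fun Q _ => fib_fin (a.f F) (a.fin F) Q).subset h3
  exact Set.finite_univ_iff.1 h2

theorem Isg.coprime (a : Isg W' W n) {ℓ : ℕ} (hℓ : ℓ.Prime) (hn : n.Coprime ℓ)
    (h : Finite W.toAffine.Point) (hc : (Nat.card W.toAffine.Point).Coprime ℓ) :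
    (Nat.card W'.toAffine.Point).Coprime ℓ := by
  classical
  have hf : Finite (Affine.baseChange W' F).Point := a.finite h
  have hf' : Finite (Affine.baseChange W F).Point := h
  rw [Nat.coprime_comm, hℓ.coprime_iff_not_dvd]
  intro hd
  have hd' : ℓ ∣ Nat.card (Affine.baseChange W' F).Point := hd
  have := Fact.mk hℓ
  obtain ⟨P, hP⟩ := exists_prime_addOrderOf_dvd_card' ℓ hd'
  have h1 : ℓ • P = 0 := by rw [← hP]; exact addOrderOf_nsmul_eq_zero P
  have hP0 : P ≠ 0 := by
    intro h0
    rw [h0, addOrderOf_zero] at hP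
    exact hℓ.one_lt.ne hP
  have h2 : ℓ • a.f F P = 0 := by rw [← map_nsmul, h1, map_zero]
  have h3 : Nat.card (Affine.baseChange W F).Point • a.f F P = 0 := card_nsmul_eq_zero'
  have key : ∀ {A : Type u} [AddCommGroup A] (x : A) (m k : ℕ), m.Coprime k → m • x = 0 →
      k • x = 0 → x = 0 := by
    intro A _ x m k hmk hm hk
    have h4 := addOrderOf_dvd_of_nsmul_eq_zero hm
    have h5 := addOrderOf_dvd_of_nsmul_eq_zero hk
    exact AddMonoid.addOrderOf_eq_one_iff.1 (Nat.eq_one_of_dvd_coprimes hmk h4 h5)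
  have h4 : a.f F P = 0 := key _ _ _ hc h3 h2
  exact hP0 (key _ _ _ hn (a.ker F P h4) h1)

end

/-- Every torsion point of `W'` is the image of a torsion point of `W` over a larger field, generated over
the base field by its coordinates. -/
theorem Isg.lift {K L' : Type} [Field K] [CharZero K] [Field L'] [Algebra K L']
    [FiniteDimensional K L'] [DecidableEq L'] {W W' : WeierstrassCurve K} {n : ℕ} (hn : n ≠ 0)
    (a : Isg W W' n) (x' y' : L') (hxy : (Affine.baseChange W' L').Nonsingular x' y')
    (ht : IsOfFinAddOrder (Affine.Point.some x' y' hxy))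
    (hL' : IntermediateField.adjoin K {x', y'} = ⊤) :
    ∃ (L : Type) (_ : Field L) (_ : Algebra K L) (_ : FiniteDimensional K L)
      (_ : DecidableEq L) (_ : L' →ₐ[K] L) (x y : L)
      (h : (Affine.baseChange W L).Nonsingular x y),
      IsOfFinAddOrder (Affine.Point.some x y h) ∧ IntermediateField.adjoin K {x, y} = ⊤ := by
  classical
  let i : L' →ₐ[K] AlgebraicClosure L' := IsScalarTower.toAlgHom K L' (AlgebraicClosure L')
  obtain ⟨T, hT⟩ := a.surj (AlgebraicClosure L')
    (Affine.Point.map i (Affine.Point.some x' y' hxy))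
  have hTt : IsOfFinAddOrder T := by
    obtain ⟨m, hm, hm'⟩ := isOfFinAddOrder_iff_nsmul_eq_zero.1 ht
    refine isOfFinAddOrder_iff_nsmul_eq_zero.2 ⟨m * n, by positivity, ?_⟩
    have h1 : a.f (AlgebraicClosure L') (m • T) = 0 := by
      rw [map_nsmul, hT, ← map_nsmul, hm', map_zero]
    have h2 := a.ker (AlgebraicClosure L') _ h1
    rwa [← mul_nsmul] at h2
  rcases T with _ | ⟨x, y, hxy₁⟩
  · exfalso
    have h1 : a.f (AlgebraicClosure L') (0 : (Affine.baseChange W (AlgebraicClosure L')).Point) =
      Affine.Point.map i (Affine.Point.some x' y' hxy) := hT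
    rw [map_zero, Affine.Point.map_some] at h1
    exact Affine.Point.some_ne_zero _ h1.symm
  have halg : Algebra.IsAlgebraic K (AlgebraicClosure L') := Algebra.IsAlgebraic.trans K L' _
  let L₀ : IntermediateField K (AlgebraicClosure L') := IntermediateField.adjoin K {x, y}
  have hx : x ∈ L₀ := IntermediateField.subset_adjoin K _ (Set.mem_insert _ _)
  have hy : y ∈ L₀ := IntermediateField.subset_adjoin K _ (Set.mem_insert_of_mem _ rfl)
  have hfin : FiniteDimensional K L₀ :=
    IntermediateField.finiteDimensional_adjoin fun z _ => (halg.isAlgebraic z).isIntegral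
  have h₀ : (Affine.baseChange W L₀).Nonsingular (⟨x, hx⟩ : L₀) (⟨y, hy⟩ : L₀) :=
    (Affine.baseChange_nonsingular (f := L₀.val) W L₀.val.injective (⟨x, hx⟩ : L₀)
      (⟨y, hy⟩ : L₀)).1 hxy₁
  have hval : Affine.Point.map L₀.val (Affine.Point.some (⟨x, hx⟩ : L₀) (⟨y, hy⟩ : L₀) h₀) =
      Affine.Point.some x y hxy₁ := rfl
  have him : ∀ z : L', i z ∈ L₀ := by
    have h1 : Affine.Point.map L₀.val
        (a.f L₀ (Affine.Point.some (⟨x, hx⟩ : L₀) (⟨y, hy⟩ : L₀) h₀)) =
        Affine.Point.map i (Affine.Point.some x' y' hxy) := by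
      rw [← a.nat, hval, hT]
    rcases hq : a.f L₀ (Affine.Point.some (⟨x, hx⟩ : L₀) (⟨y, hy⟩ : L₀) h₀) with _ | ⟨x₂, y₂, h₂⟩
    · exfalso
      rw [hq] at h1
      exact Affine.Point.some_ne_zero _ h1.symm
    · rw [hq, Affine.Point.map_some, Affine.Point.map_some, Affine.Point.some.injEq] at h1
      have h3 : IntermediateField.adjoin K {x', y'} ≤ L₀.comap i := by
        rw [IntermediateField.adjoin_le_iff]
        rintro z (rfl | rfl)
        · show i z ∈ L₀
          rw [← h1.1]
          exact x₂.2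
        · show i z ∈ L₀
          rw [← h1.2]
          exact y₂.2
      intro z
      have h4 : z ∈ IntermediateField.adjoin K {x', y'} := by
        rw [hL']
        exact IntermediateField.mem_top
      exact h3 h4
  refine ⟨L₀, inferInstance, inferInstance, hfin, inferInstance,
    AlgHom.codRestrict i L₀.toSubalgebra him, ⟨x, hx⟩, ⟨y, hy⟩, h₀, ?_, ?_⟩
  · rw [← hval] at hTt
    exact ((Affine.Point.map_injective L₀.val).isOfFinAddOrder_iff).1 hTt
  · apply IntermediateField.lift_injective L₀
    rw [IntermediateField.lift_top, IntermediateField.lift_adjoin, Set.image_pair]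

end Pool.Agent.Lib.MP_1a91b9_nuI
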