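import Pool.Agent.Lib.MP_1a91b9_nuI.Ho.Use
import Pool.Agent.Lib.MP_1a91b9_nuT3.S9.Defs

/-!
# The Tate-Shafarevich groups of isogenous curves
-/

set_option autoImplicit false

namespace Pool.Agent.Lib.MP_1a91b9_nuI

open WeierstrassCurve NumberField IsDedekindDomain
open Pool.Agent.Lib.MP_1a91b9_nuT.S9 (Gal Pts coc cob trivOver shaCoc Sha)
open Pool.Agent.Lib.MP_1a91b9_nuT3.S9 (ShaP)

open scoped Classical

universe u

section
variable {k : Type u} [Field k] {W W' : WeierstrassCurve k} {n : ℕ}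

/-- the image of a cocycle -/
noncomputable def Isg.push (a : Isg W' W n) (c : Gal k → Pts W' (AlgebraicClosure k)) :
    Gal k → Pts W (AlgebraicClosure k) := fun σ => a.f (AlgebraicClosure k) (c σ)

theorem Isg.push_coc (a : Isg W' W n) {c : Gal k → Pts W' (AlgebraicClosure k)}
    (hc : c ∈ coc W') : a.push c ∈ coc W := by
  refine ⟨hc.1.comp (a.f (AlgebraicClosure k)), fun σ τ => ?_⟩
  show a.f (AlgebraicClosure k) (c (σ * τ)) = a.f (AlgebraicClosure k) (c σ) +
    Affine.Point.map (σ : AlgebraicClosure k →ₐ[k] _) (a.f (AlgebraicClosure k) (c τ))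
  rw [hc.2, map_add, a.nat]

theorem Isg.push_triv (a : Isg W' W n) (L : Type u) [Field L] [Algebra k L]
    {c : Gal k → Pts W' (AlgebraicClosure k)} (hc : c ∈ trivOver W' L) :
    a.push c ∈ trivOver W L := by
  intro i
  obtain ⟨P, hP⟩ := hc i
  refine ⟨a.f (AlgebraicClosure L) P, fun σ τ h => ?_⟩
  show Affine.Point.map i (a.f (AlgebraicClosure k) (c τ)) = _
  rw [← a.nat, hP σ τ h, map_sub, a.nat]

theorem Isg.push_cob (a : Isg W' W n) {c : Gal k → Pts W' (AlgebraicClosure k)}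
    (hc : c ∈ cob W') : a.push c ∈ cob W := by
  obtain ⟨P, hP⟩ := hc
  refine ⟨a.f (AlgebraicClosure k) P, fun σ => ?_⟩
  show a.f (AlgebraicClosure k) (c σ) = _
  rw [hP, map_sub, a.nat]

theorem Isg.push_nsmul (a : Isg W' W n) (c : Gal k → Pts W' (AlgebraicClosure k)) (m : ℕ) :
    a.push (m • c) = m • a.push c := by
  funext σ
  show a.f (AlgebraicClosure k) (m • c σ) = m • a.f (AlgebraicClosure k) (c σ)
  rw [map_nsmul]

theorem Isg.cob_of_push (a : Isg W' W n) {c : Gal k → Pts W' (AlgebraicClosure k)}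
    (h : a.push c ∈ cob W) : n • c ∈ cob W' := by
  obtain ⟨Q, hQ⟩ := h
  obtain ⟨P, rfl⟩ := a.surj (AlgebraicClosure k) Q
  refine ⟨n • P, fun σ => ?_⟩
  have h1 : a.f (AlgebraicClosure k) (c σ -
      (Affine.Point.map (σ : AlgebraicClosure k →ₐ[k] _) P - P)) = 0 := by
    rw [map_sub, map_sub, a.nat]
    have h2 : a.f (AlgebraicClosure k) (c σ) =
      Affine.Point.map (σ : AlgebraicClosure k →ₐ[k] _) (a.f (AlgebraicClosure k) P) -
        a.f (AlgebraicClosure k) P := hQ σ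
    rw [h2, sub_self]
  have h3 := a.ker (AlgebraicClosure k) _ h1
  rw [nsmul_sub, nsmul_sub, sub_eq_zero] at h3
  show n • c σ = _
  rw [h3, map_nsmul]

end

section
variable {N : Type u} [Field N] [NumberField N] {W W' : WeierstrassCurve N} {n : ℕ}

theorem Isg.push_sha (a : Isg W' W n) {c : Gal N → Pts W' (AlgebraicClosure N)}
    (hc : c ∈ shaCoc W') : a.push c ∈ shaCoc W := by
  obtain ⟨⟨h1, h2⟩, h3⟩ := hc
  refine ⟨⟨a.push_coc h1, ?_⟩, ?_⟩
  · have h2' := (AddSubgroup.mem_iInf).1 h2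
    exact (AddSubgroup.mem_iInf).2 fun v => a.push_triv _ (h2' v)
  · have h3' := (AddSubgroup.mem_iInf).1 h3
    exact (AddSubgroup.mem_iInf).2 fun v => a.push_triv _ (h3' v)

theorem Isg.sha (a : Isg W' W n) (ℓ : ℕ) [hℓ : Fact ℓ.Prime] (hn : n.Coprime ℓ)
    (h : Subsingleton (ShaP ℓ W)) : Subsingleton (ShaP ℓ W') := by
  refine ⟨fun x y => ?_⟩
  have key : ∀ z : ShaP ℓ W', z = 0 := by
    intro z
    obtain ⟨z, hz⟩ := z
    obtain ⟨c, rfl⟩ := QuotientAddGroup.mk_surjective z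
    obtain ⟨m, hm⟩ := hz
    have h1 : ℓ ^ m • (c : Gal N → Pts W' (AlgebraicClosure N)) ∈ cob W' := by
      have h2 : ((ℓ ^ m • c : shaCoc W') : Sha W') = 0 := hm
      have h3 := (QuotientAddGroup.eq_zero_iff _).1 h2
      exact h3
    have h2 : a.push (c : Gal N → Pts W' (AlgebraicClosure N)) ∈ cob W := by
      let d : shaCoc W := ⟨a.push c, a.push_sha c.2⟩
      have h3 : (d : Sha W) ∈ AddCommGroup.primaryComponent (Sha W) ℓ := by
        refine ⟨m, ?_⟩
        have h4 : ((ℓ ^ m • d : shaCoc W) : Sha W) = 0 := by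
          rw [QuotientAddGroup.eq_zero_iff]
          show ℓ ^ m • a.push (c : Gal N → Pts W' (AlgebraicClosure N)) ∈ cob W
          rw [← a.push_nsmul]
          exact a.push_cob h1
        exact h4
      have h5 : (⟨(d : Sha W), h3⟩ : ShaP ℓ W) = 0 := Subsingleton.elim _ _
      have h6 : (d : Sha W) = 0 := congrArg Subtype.val h5
      have h7 := (QuotientAddGroup.eq_zero_iff d).1 h6
      exact h7
    have h3 := a.cob_of_push h2
    have h4 : (c : Gal N → Pts W' (AlgebraicClosure N)) ∈ cob W' := by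
      have h5 : (n.gcd (ℓ ^ m) : ℤ) = n * n.gcdA (ℓ ^ m) + (ℓ ^ m : ℕ) * n.gcdB (ℓ ^ m) :=
        Nat.gcd_eq_gcd_ab _ _
      rw [Nat.Coprime.pow_right m hn] at h5
      have h6 : (c : Gal N → Pts W' (AlgebraicClosure N)) =
          (n.gcdA (ℓ ^ m)) • (n • (c : Gal N → Pts W' (AlgebraicClosure N))) +
          (n.gcdB (ℓ ^ m)) • (ℓ ^ m • (c : Gal N → Pts W' (AlgebraicClosure N))) := by
        have h8 : n.gcdA (ℓ ^ m) * (n : ℤ) + n.gcdB (ℓ ^ m) * ((ℓ ^ m : ℕ) : ℤ) = 1 := by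
          rw [mul_comm, mul_comm (n.gcdB (ℓ ^ m))]
          exact h5.symm
        rw [← natCast_zsmul, ← natCast_zsmul, ← mul_zsmul, ← mul_zsmul, ← add_zsmul, h8, one_zsmul]
      rw [h6]
      exact add_mem (zsmul_mem h3 _) (zsmul_mem h1 _)
    apply Subtype.ext
    show ((c : shaCoc W') : Sha W') = 0
    rw [QuotientAddGroup.eq_zero_iff]
    exact h4
  rw [key x, key y]

end

end Pool.Agent.Lib.MP_1a91b9_nuI
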