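import Pool.Agent.Lib.MP_1a91b9_nuI.Add

/-!
# Points over an algebraically closed field; the finite set of the points with `x = 0`; naturality
-/

set_option autoImplicit false

namespace Pool.Agent.Lib.MP_1a91b9_nuI

open WeierstrassCurve

theorem inf_pts {F : Type*} [Field F] [IsAlgClosed F] (W : WeierstrassCurve F) (hΔ : W.Δ ≠ 0)
    (h1 : W.a₁ = 0) (h3 : W.a₃ = 0) : Infinite W.toAffine.Point := by
  have hy : ∀ x : F, ∃ y : F, W.toAffine.Nonsingular x y := by
    intro x
    obtain ⟨y, hy⟩ := IsAlgClosed.exists_pow_nat_eq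
      (x ^ 3 + W.a₂ * x ^ 2 + W.a₄ * x + W.a₆) (n := 2) two_pos
    exact ⟨y, (nons W hΔ h1 h3 x y).2 hy⟩
  choose y hy using hy
  have : Infinite F := IsAlgClosed.instInfinite
  refine Infinite.of_injective (fun x => Affine.Point.some x (y x) (hy x)) ?_
  intro x x' h
  exact (Affine.Point.some.inj h).1

theorem fin_xz {F : Type*} [Field F] (W : WeierstrassCurve F) (hΔ : W.Δ ≠ 0)
    (h1 : W.a₁ = 0) (h3 : W.a₃ = 0) : {P : W.toAffine.Point | xz W P}.Finite := by
  classical
  have hfin : {y : F | y ^ 2 = W.a₆}.Finite := by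
    by_cases h : ∃ y0 : F, y0 ^ 2 = W.a₆
    · obtain ⟨y0, h0⟩ := h
      refine (Set.toFinite {y0, -y0}).subset ?_
      intro y hy
      rw [Set.mem_ofPred_eq, ← h0] at hy
      rcases sq_eq_sq_iff_eq_or_eq_neg.1 hy with h2 | h2
      · exact Or.inl h2
      · exact Or.inr h2
    · refine Set.finite_empty.subset ?_
      intro y hy
      exact h ⟨y, hy⟩
  let f : F → W.toAffine.Point := fun y =>
    if h : W.toAffine.Nonsingular 0 y then Affine.Point.some 0 y h else 0
  refine ((hfin.image f).insert 0).subset ?_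
  rintro (_ | ⟨x, y, hP⟩) hx
  · exact Or.inl rfl
  · have hx0 : x = 0 := hx
    subst hx0
    refine Or.inr ⟨y, ?_, ?_⟩
    · have h4 := (nons W hΔ h1 h3 0 y).1 hP
      show y ^ 2 = W.a₆
      rw [h4]
      ring
    · show f y = _
      simp only [f, dif_pos hP]

private theorem inf_pt_ext {F : Type*} [Field F] {W : WeierstrassCurve F} {x y x' y' : F}
    (h : W.toAffine.Nonsingular x y) (h' : W.toAffine.Nonsingular x' y') (hx : x = x')
    (hy : y = y') : Affine.Point.some x y h = Affine.Point.some x' y' h' := by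
  subst hx
  subst hy
  rfl

theorem phi2_map {F L L' : Type*} [Field F] [Field L] [Field L'] [Algebra F L] [Algebra F L']
    [DecidableEq L] [DecidableEq L'] {W W' : WeierstrassCurve F}
    (h : Rel2 (W.baseChange L) (W'.baseChange L)) (h' : Rel2 (W.baseChange L') (W'.baseChange L'))
    (f : L →ₐ[F] L') (P : (Affine.baseChange W L).Point) :
    phi2 h' (Affine.Point.map f P) = Affine.Point.map f (phi2 h P) := by
  have e2 : f (W.baseChange L).a₂ = (W.baseChange L').a₂ := f.commutes W.a₂
  have e4 : f (W.baseChange L).a₄ = (W.baseChange L').a₄ := f.commutes W.a₄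
  rcases P with _ | ⟨x, y, hP⟩
  · rfl
  · by_cases hx : x = 0
    · have hfx : f x = 0 := by rw [hx, map_zero]
      have r1 : phi2 h (Affine.Point.some x y hP) = .zero := dif_pos hx
      rw [r1, Affine.Point.map_some]
      exact dif_pos hfx
    · have hfx : f x ≠ 0 := (map_ne_zero f).2 hx
      rw [Affine.Point.map_some]
      unfold phi2
      simp only
      rw [dif_neg hx, dif_neg hfx]
      rw [Affine.Point.map_some]
      refine inf_pt_ext _ _ ?_ ?_
      · rw [map_add, map_add, map_div₀, e2, e4]
      · rw [map_mul, map_sub, map_one, map_div₀, map_pow, e4]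

theorem phi3_map {F L L' : Type*} [Field F] [Field L] [Field L'] [Algebra F L] [Algebra F L']
    [DecidableEq L] [DecidableEq L'] {W W' : WeierstrassCurve F}
    (h : Rel3 (W.baseChange L) (W'.baseChange L)) (h' : Rel3 (W.baseChange L') (W'.baseChange L'))
    (f : L →ₐ[F] L') (P : (Affine.baseChange W L).Point) :
    phi3 h' (Affine.Point.map f P) = Affine.Point.map f (phi3 h P) := by
  have e4 : f (W.baseChange L).a₄ = (W.baseChange L').a₄ := f.commutes W.a₄
  have e6 : f (W.baseChange L).a₆ = (W.baseChange L').a₆ := f.commutes W.a₆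
  rcases P with _ | ⟨x, y, hP⟩
  · rfl
  · by_cases hx : x = 0
    · have hfx : f x = 0 := by rw [hx, map_zero]
      have r1 : phi3 h (Affine.Point.some x y hP) = .zero := dif_pos hx
      rw [r1, Affine.Point.map_some]
      exact dif_pos hfx
    · have hfx : f x ≠ 0 := (map_ne_zero f).2 hx
      rw [Affine.Point.map_some]
      unfold phi3
      simp only
      rw [dif_neg hx, dif_neg hfx]
      rw [Affine.Point.map_some]
      refine inf_pt_ext _ _ ?_ ?_
      · rw [map_add, map_add, map_div₀, map_div₀, map_mul, map_mul, map_pow, map_ofNat, map_ofNat,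
          e4, e6]
      · rw [map_mul, map_sub, map_sub, map_one, map_div₀, map_div₀, map_mul, map_mul, map_pow,
          map_pow, map_ofNat, map_ofNat, e4, e6]

end Pool.Agent.Lib.MP_1a91b9_nuI
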