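import Pool.Agent.Lib.MP_1a91b9_nuI.Add

/-!
# The isogeny of degree 2: translation by the kernel, kernel, surjectivity
-/

set_option autoImplicit false

namespace Pool.Agent.Lib.MP_1a91b9_nuI

open WeierstrassCurve

variable {F : Type*} [Field F] [DecidableEq F] {W W' : WeierstrassCurve F}

omit [DecidableEq F] in
private theorem R2B_zero (h : Rel2 W W') : phi2 h 0 = 0 := rfl

omit [DecidableEq F] in
private theorem R2B_pos (h : Rel2 W W') {x y : F} (hP : W.toAffine.Nonsingular x y) (hx : x = 0) :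
    phi2 h (Affine.Point.some x y hP) = 0 := by
  unfold phi2
  simp only [hx, dif_pos]
  rfl

omit [DecidableEq F] in
private theorem R2B_neg (h : Rel2 W W') {x y : F} (hP : W.toAffine.Nonsingular x y) (hx : x ≠ 0) :
    ∃ h', phi2 h (Affine.Point.some x y hP) =
      Affine.Point.some (x + W.a₂ + W.a₄ / x) (y * (1 - W.a₄ / x ^ 2)) h' := by
  refine ⟨?_, ?_⟩
  · rw [nons W' h.Δ' h.a₁' h.a₃', h.a₂', h.a₄', h.a₆', add_zero]
    apply phi2_eqn _ _ _ _ hx
    rw [nons W h.Δ h.a₁ h.a₃, h.a₆, add_zero] at hP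
    exact hP
  · unfold phi2
    simp only [hx, dite_false]

omit [DecidableEq F] in
private theorem R2B_eq (h : Rel2 W W') {x y : F} (hP : W.toAffine.Nonsingular x y) :
    y ^ 2 = x ^ 3 + W.a₂ * x ^ 2 + W.a₄ * x := by
  rw [nons W h.Δ h.a₁ h.a₃, h.a₆, add_zero] at hP
  exact hP

omit [DecidableEq F] in
private theorem R2B_y (h : Rel2 W W') {x y : F} (hP : W.toAffine.Nonsingular x y) (hx : x = 0) :
    y = 0 := by
  have h1 := R2B_eq h hP
  rw [hx] at h1
  have h2 : y ^ 2 = 0 := by rw [h1]; ring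
  exact pow_eq_zero_iff (two_ne_zero) |>.1 h2

theorem phi2_xz (h : Rel2 W W') (P : W.toAffine.Point) : phi2 h P = 0 ↔ xz W P := by
  rcases P with _ | ⟨x, y, hP⟩
  · exact ⟨fun _ => trivial, fun _ => rfl⟩
  · constructor
    · intro h1
      by_contra h2
      obtain ⟨h', h3⟩ := R2B_neg h hP h2
      rw [h3] at h1
      exact Affine.Point.some_ne_zero h' h1
    · intro h1
      exact R2B_pos h hP h1

theorem xz2_two (h : Rel2 W W') (P : W.toAffine.Point) (hP : xz W P) : P + P = 0 := by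
  rcases P with _ | ⟨x, y, hxy⟩
  · exact add_zero (0 : W.toAffine.Point)
  · have hy := R2B_y h hxy hP
    subst hy
    exact double_zero W h.a₁ h.a₃ hxy

theorem phi2_tr (h : Rel2 W W') (P Q : W.toAffine.Point) (hP : xz W P) :
    phi2 h (P + Q) = phi2 h P + phi2 h Q := by
  rcases P with _ | ⟨x, y, hxy⟩
  · change phi2 h (0 + Q) = phi2 h 0 + phi2 h Q
    rw [R2B_zero, zero_add, zero_add]
  · have hx : x = 0 := hP
    have hy := R2B_y h hxy hx
    rw [R2B_pos h hxy hx, zero_add]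
    rcases Q with _ | ⟨x2, y2, hQ⟩
    · change phi2 h (_ + 0) = phi2 h 0
      rw [add_zero, R2B_pos h hxy hx, R2B_zero]
    · by_cases hx2 : x2 = 0
      · have hy2 := R2B_y h hQ hx2
        have e : (Affine.Point.some x2 y2 hQ : W.toAffine.Point) = Affine.Point.some x y hxy := by
          simp only [Affine.Point.some.injEq, hx, hx2, hy, hy2, and_self]
        rw [e, xz2_two h _ hP, R2B_pos h hxy hx, R2B_zero]
      · have hE := R2B_eq h hQ
        have hx2' : x2 ^ 2 ≠ 0 := pow_ne_zero 2 hx2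
        have hb := h.b0
        obtain ⟨h', e⟩ := add_pt W h.a₁ h.a₃ hxy hQ (by rw [hx]; exact fun h0 => hx2 h0.symm)
          (y2 / x2) (W.a₄ / x2) (-(W.a₄ * y2 / x2 ^ 2))
          (by rw [hx, hy]; field_simp; ring)
          (by
            rw [hx]
            field_simp
            linear_combination -hE)
          (by rw [hx, hy]; field_simp; ring)
        rw [e]
        have hx3 : W.a₄ / x2 ≠ 0 := div_ne_zero hb hx2
        obtain ⟨h1, e1⟩ := R2B_neg h h' hx3
        obtain ⟨h2, e2⟩ := R2B_neg h hQ hx2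
        rw [e1, e2, Affine.Point.some.injEq]
        constructor
        · field_simp
          ring
        · field_simp
          ring

theorem phi2_surj [IsAlgClosed F] (h : Rel2 W W') : Function.Surjective (phi2 h) := by
  have h4 : (4 : F) ≠ 0 := by
    have h2 : (4 : F) = 2 ^ 2 := by norm_num
    rw [h2]
    exact pow_ne_zero 2 h.two
  have hb := h.b0
  intro Q
  rcases Q with _ | ⟨X, Y, hQ⟩
  · exact ⟨0, rfl⟩
  · have hE : Y ^ 2 = X ^ 3 - 2 * W.a₂ * X ^ 2 + (W.a₂ ^ 2 - 4 * W.a₄) * X := by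
      rw [nons W' h.Δ' h.a₁' h.a₃', h.a₂', h.a₄', h.a₆', add_zero] at hQ
      linear_combination hQ
    obtain ⟨d, hd⟩ := IsAlgClosed.exists_pow_nat_eq ((X - W.a₂) ^ 2 - 4 * W.a₄) (n := 2) two_pos
    obtain ⟨x, hxd⟩ : ∃ x, 2 * x = X - W.a₂ + d := ⟨(X - W.a₂ + d) / 2, by
      have := h.two
      field_simp⟩
    have hx : x ^ 2 + (W.a₂ - X) * x + W.a₄ = 0 := by
      have h5 : 4 * (x ^ 2 + (W.a₂ - X) * x + W.a₄) = 0 := by
        linear_combination (2 * x + (X - W.a₂ + d) + 2 * (W.a₂ - X)) * hxd + hd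
      exact (mul_eq_zero.1 h5).resolve_left h4
    have hx0 : x ≠ 0 := by
      intro h0
      rw [h0] at hx
      apply hb
      linear_combination hx
    have hX : x + W.a₂ + W.a₄ / x = X := by
      field_simp
      linear_combination hx
    have hf : x ^ 2 * X = x ^ 3 + W.a₂ * x ^ 2 + W.a₄ * x := by
      linear_combination -x * hx
    have hx2 : x ^ 2 ≠ 0 := pow_ne_zero 2 hx0
    have hYX : x ^ 2 * Y ^ 2 = X * (x ^ 2 - W.a₄) ^ 2 := by
      have h6 : x * X = x ^ 2 + W.a₂ * x + W.a₄ := by linear_combination -hx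
      rw [hE]
      linear_combination (x * X ^ 2 + (-W.a₂ * x + W.a₄ + x ^ 2) * X) * h6 
    by_cases hxb : x ^ 2 = W.a₄
    · have hY : Y = 0 := by
        rw [hxb] at hYX
        have h7 : W.a₄ * Y ^ 2 = 0 := by rw [hYX]; ring
        exact pow_eq_zero_iff two_ne_zero |>.1 ((mul_eq_zero.1 h7).resolve_left hb)
      obtain ⟨y, hy⟩ := IsAlgClosed.exists_pow_nat_eq (x ^ 3 + W.a₂ * x ^ 2 + W.a₄ * x) (n := 2)
        two_pos
      have hP : W.toAffine.Nonsingular x y := by
        rw [nons W h.Δ h.a₁ h.a₃, h.a₆, add_zero]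
        exact hy
      refine ⟨Affine.Point.some x y hP, ?_⟩
      obtain ⟨h1, e1⟩ := R2B_neg h hP hx0
      rw [e1, Affine.Point.some.injEq]
      refine ⟨hX, ?_⟩
      rw [hxb, div_self hb, hY]
      ring
    · have hxb' : x ^ 2 - W.a₄ ≠ 0 := sub_ne_zero.2 hxb
      have hP : W.toAffine.Nonsingular x (Y * x ^ 2 / (x ^ 2 - W.a₄)) := by
        rw [nons W h.Δ h.a₁ h.a₃, h.a₆, add_zero, ← hf]
        field_simp
        linear_combination hYX
      refine ⟨Affine.Point.some x _ hP, ?_⟩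
      obtain ⟨h1, e1⟩ := R2B_neg h hP hx0
      rw [e1, Affine.Point.some.injEq]
      refine ⟨hX, ?_⟩
      field_simp

end Pool.Agent.Lib.MP_1a91b9_nuI
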