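import Pool.Agent.Lib.MP_1a91b9_nuI.Add

/-!
# The isogeny of degree 3 is additive generically
-/

set_option autoImplicit false

namespace Pool.Agent.Lib.MP_1a91b9_nuI

open WeierstrassCurve

theorem line3 {F : Type*} [Field F] (a b c x y l m : F) (hx : x ≠ 0) (hr : 4 * a * c = b ^ 2)
    (h : y ^ 2 = x ^ 3 + a * x ^ 2 + b * x + c) (hy : y = l * x + m) :
    (c - m ^ 2) * (y * (1 - 2 * b / x ^ 2 - 8 * c / x ^ 3)) +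
      (3 * c * l + l * m ^ 2 - 2 * b * m) * (x + 2 * b / x + 4 * c / x ^ 2) +
      (-9 * c * m + m ^ 3 + b ^ 2 * l - 2 * a * b * m - 4 * c * l ^ 3 + 2 * b * l ^ 2 * m) = 0 := by
  have key : (c - m ^ 2) * y * (x ^ 3 - 2 * b * x - 8 * c) +
      (3 * c * l + l * m ^ 2 - 2 * b * m) * (x ^ 4 + 2 * b * x ^ 2 + 4 * c * x) +
      (-9 * c * m + m ^ 3 + b ^ 2 * l - 2 * a * b * m - 4 * c * l ^ 3 + 2 * b * l ^ 2 * m) *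
        x ^ 3 = 0 := by
    subst hy
    linear_combination (4 * a * c * l - b ^ 2 * l + 2 * b * x * m - 4 * c * x * l + 8 * c * m) * h +
      (a * x ^ 2 * l + b * x * l + c * l - x ^ 2 * l ^ 3 + 2 * x ^ 2 * m - 2 * x * l ^ 2 * m -
        l * m ^ 2) * hr
  have e : (c - m ^ 2) * (y * (1 - 2 * b / x ^ 2 - 8 * c / x ^ 3)) +
      (3 * c * l + l * m ^ 2 - 2 * b * m) * (x + 2 * b / x + 4 * c / x ^ 2) +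
      (-9 * c * m + m ^ 3 + b ^ 2 * l - 2 * a * b * m - 4 * c * l ^ 3 + 2 * b * l ^ 2 * m) =
      ((c - m ^ 2) * y * (x ^ 3 - 2 * b * x - 8 * c) +
      (3 * c * l + l * m ^ 2 - 2 * b * m) * (x ^ 4 + 2 * b * x ^ 2 + 4 * c * x) +
      (-9 * c * m + m ^ 3 + b ^ 2 * l - 2 * a * b * m - 4 * c * l ^ 3 + 2 * b * l ^ 2 * m) *
        x ^ 3) / x ^ 3 := by
    field_simp
  rw [e, key, zero_div]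

private theorem R3A_sum {F : Type*} [Field F] (a b c l m x₁ x₂ x₃ : F) (h₁ : x₁ ≠ 0)
    (h₂ : x₂ ≠ 0) (h₃ : x₃ ≠ 0) (hr : 4 * a * c = b ^ 2)
    (e₁ : x₁ + x₂ + x₃ = l ^ 2 - a) (e₂ : x₁ * x₂ + x₁ * x₃ + x₂ * x₃ = b - 2 * l * m)
    (e₃ : x₁ * x₂ * x₃ = m ^ 2 - c) :
    (x₁ + 2 * b / x₁ + 4 * c / x₁ ^ 2) + (x₂ + 2 * b / x₂ + 4 * c / x₂ ^ 2) +
      (x₃ + 2 * b / x₃ + 4 * c / x₃ ^ 2) =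
      (-(3 * c * l + l * m ^ 2 - 2 * b * m) / (c - m ^ 2)) ^ 2 - a := by
  have h0 : m ^ 2 - c ≠ 0 := by
    rw [← e₃]
    exact mul_ne_zero (mul_ne_zero h₁ h₂) h₃
  have h0' : c - m ^ 2 ≠ 0 := by
    intro h
    exact h0 (by linear_combination -h)
  have k : (x₁ + 2 * b / x₁ + 4 * c / x₁ ^ 2) + (x₂ + 2 * b / x₂ + 4 * c / x₂ ^ 2) +
      (x₃ + 2 * b / x₃ + 4 * c / x₃ ^ 2) =
      ((x₁ + x₂ + x₃) * (x₁ * x₂ * x₃) ^ 2 +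
        2 * b * (x₁ * x₂ + x₁ * x₃ + x₂ * x₃) * (x₁ * x₂ * x₃) +
        4 * c * ((x₁ * x₂ + x₁ * x₃ + x₂ * x₃) ^ 2 - 2 * (x₁ + x₂ + x₃) * (x₁ * x₂ * x₃))) /
        (x₁ * x₂ * x₃) ^ 2 := by
    field_simp
    ring
  have k2 : (-(3 * c * l + l * m ^ 2 - 2 * b * m) / (c - m ^ 2)) ^ 2 - a =
      ((3 * c * l + l * m ^ 2 - 2 * b * m) ^ 2 - a * (m ^ 2 - c) ^ 2) / (m ^ 2 - c) ^ 2 := by
    have k3 : (m ^ 2 - c) ^ 2 = (c - m ^ 2) ^ 2 := by ring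
    rw [k3, sub_div, mul_div_assoc, div_self (pow_ne_zero 2 h0'), mul_one, div_pow, neg_sq]
  rw [k, k2, e₁, e₂, e₃]
  congr 1
  linear_combination (-2 * c + 2 * m ^ 2) * hr

private theorem R3A_X {F : Type*} [Field F] (b c x₁ x₂ : F) (h₁ : x₁ ≠ 0) (h₂ : x₂ ≠ 0)
    (hx : x₁ ≠ x₂) (h : x₁ ^ 2 * x₂ ^ 2 - 2 * b * x₁ * x₂ - 4 * c * (x₁ + x₂) ≠ 0) :
    x₁ + 2 * b / x₁ + 4 * c / x₁ ^ 2 ≠ x₂ + 2 * b / x₂ + 4 * c / x₂ ^ 2 := by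
  intro h0
  have k : (x₁ + 2 * b / x₁ + 4 * c / x₁ ^ 2) - (x₂ + 2 * b / x₂ + 4 * c / x₂ ^ 2) =
      (x₁ - x₂) * (x₁ ^ 2 * x₂ ^ 2 - 2 * b * x₁ * x₂ - 4 * c * (x₁ + x₂)) /
        (x₁ ^ 2 * x₂ ^ 2) := by
    field_simp
    ring
  rw [h0, sub_self] at k
  exact div_ne_zero (mul_ne_zero (sub_ne_zero.2 hx) h)
    (mul_ne_zero (pow_ne_zero 2 h₁) (pow_ne_zero 2 h₂)) k.symm

private theorem R3A_phi {F : Type*} [Field F] {W W' : WeierstrassCurve F} (h : Rel3 W W')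
    {x y : F} (hxy : W.toAffine.Nonsingular x y) (hx : x ≠ 0) :
    ∃ h', phi3 h (Affine.Point.some x y hxy) =
      Affine.Point.some (x + 2 * W.a₄ / x + 4 * W.a₆ / x ^ 2)
        (y * (1 - 2 * W.a₄ / x ^ 2 - 8 * W.a₆ / x ^ 3)) h' := by
  refine ⟨?_, ?_⟩
  · rw [nons W' h.Δ' h.a₁' h.a₃', h.a₂', h.a₄', h.a₆']
    apply phi3_eqn _ _ _ _ _ hx h.rel
    rw [nons W h.Δ h.a₁ h.a₃] at hxy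
    exact hxy
  · simp only [phi3]
    rw [dif_neg hx]

theorem phi3_gen {F : Type*} [Field F] [DecidableEq F] {W W' : WeierstrassCurve F}
    (h : Rel3 W W') (P Q : W.toAffine.Point) (hP : ¬ xz W P) (hQ : ¬ xz W Q)
    (hPQ : ¬ xz W (P + Q)) (hPQ' : ¬ xz W (P - Q)) :
    phi3 h (P + Q) = phi3 h P + phi3 h Q := by
  rcases P with _ | ⟨x₁, y₁, n₁⟩
  · exact absurd trivial hP
  rcases Q with _ | ⟨x₂, y₂, n₂⟩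
  · exact absurd trivial hQ
  have hx₁ : x₁ ≠ 0 := hP
  have hx₂ : x₂ ≠ 0 := hQ
  have E₁ := (nons W h.Δ h.a₁ h.a₃ x₁ y₁).1 n₁
  have E₂ := (nons W h.Δ h.a₁ h.a₃ x₂ y₂).1 n₂
  obtain ⟨n₂', hneg⟩ := neg_pt W h.a₁ h.a₃ n₂
  have hx : x₁ ≠ x₂ := by
    intro hx
    subst hx
    have h1 : (y₁ - y₂) * (y₁ + y₂) = 0 := by linear_combination E₁ - E₂
    rcases mul_eq_zero.1 h1 with h2 | h2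
    · have h3 : y₁ = y₂ := by linear_combination h2
      subst h3
      apply hPQ'
      rw [sub_self]
      exact xz_zero W
    · have h3 : y₁ = -y₂ := by linear_combination h2
      subst h3
      apply hPQ
      rw [← hneg, neg_add_cancel]
      exact xz_zero W
  have hx0 : x₁ - x₂ ≠ 0 := sub_ne_zero.2 hx
  obtain ⟨l, hl⟩ : ∃ l, l = (y₁ - y₂) / (x₁ - x₂) := ⟨_, rfl⟩
  have hl' : l * (x₁ - x₂) = y₁ - y₂ := by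
    rw [hl]
    exact div_mul_cancel₀ _ hx0
  obtain ⟨m, hm⟩ : ∃ m, m = y₁ - l * x₁ := ⟨_, rfl⟩
  obtain ⟨x₃, hx₃⟩ : ∃ x₃, x₃ = l ^ 2 - W.a₂ - x₁ - x₂ := ⟨_, rfl⟩
  obtain ⟨y₃, hy₃⟩ : ∃ y₃, y₃ = -(l * (x₃ - x₁) + y₁) := ⟨_, rfl⟩
  obtain ⟨n₃, hsum⟩ := add_pt W h.a₁ h.a₃ n₁ n₂ hx l x₃ y₃ hl' hx₃ hy₃
  have E₃ := (nons W h.Δ h.a₁ h.a₃ x₃ y₃).1 n₃
  rw [hsum] at hPQ
  have hx₃0 : x₃ ≠ 0 := hPQ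
  -- the difference
  obtain ⟨r, hr⟩ : ∃ r, r = (y₁ + y₂) / (x₁ - x₂) := ⟨_, rfl⟩
  have hr' : r * (x₁ - x₂) = y₁ - -y₂ := by
    rw [hr, sub_neg_eq_add]
    exact div_mul_cancel₀ _ hx0
  obtain ⟨n₄, hdiff⟩ := add_pt W h.a₁ h.a₃ n₁ n₂' hx r _ _ hr' rfl rfl
  rw [sub_eq_add_neg, hneg, hdiff] at hPQ'
  have hx₄0 : r ^ 2 - W.a₂ - x₁ - x₂ ≠ 0 := hPQ'
  have hprod := prod_formula W.a₂ W.a₄ W.a₆ x₁ x₂ y₁ y₂ hx E₁ E₂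
  rw [← hl, ← hr, ← hx₃] at hprod
  have hpol : x₁ ^ 2 * x₂ ^ 2 - 2 * W.a₄ * x₁ * x₂ - 4 * W.a₆ * (x₁ + x₂) ≠ 0 := by
    have h1 : x₁ ^ 2 * x₂ ^ 2 - 2 * W.a₄ * x₁ * x₂ - 4 * W.a₆ * (x₁ + x₂) =
        x₃ * (r ^ 2 - W.a₂ - x₁ - x₂) * (x₁ - x₂) ^ 2 := by
      linear_combination -hprod + h.rel
    rw [h1]
    exact mul_ne_zero (mul_ne_zero hx₃0 hx₄0) (pow_ne_zero 2 hx0)
  -- the line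
  have L₁ : y₁ = l * x₁ + m := by rw [hm]; ring
  have L₂ : y₂ = l * x₂ + m := by
    rw [hm]
    linear_combination hl'
  have L₃ : -y₃ = l * x₃ + m := by
    rw [hm, hy₃]
    ring
  have e₁ : x₁ + x₂ + x₃ = l ^ 2 - W.a₂ := by
    rw [hx₃]
    ring
  have e₂ : x₁ * x₂ + x₁ * x₃ + x₂ * x₃ = W.a₄ - 2 * l * m := by
    apply mul_left_cancel₀ hx0
    rw [hx₃]
    have k1 : (l * x₁ + m) ^ 2 = x₁ ^ 3 + W.a₂ * x₁ ^ 2 + W.a₄ * x₁ + W.a₆ := by rw [← L₁, E₁]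
    have k2 : (l * x₂ + m) ^ 2 = x₂ ^ 3 + W.a₂ * x₂ ^ 2 + W.a₄ * x₂ + W.a₆ := by rw [← L₂, E₂]
    linear_combination k1 - k2
  have e₃ : x₁ * x₂ * x₃ = m ^ 2 - W.a₆ := by
    have k1 : (l * x₁ + m) ^ 2 = x₁ ^ 3 + W.a₂ * x₁ ^ 2 + W.a₄ * x₁ + W.a₆ := by rw [← L₁, E₁]
    linear_combination -k1 - x₁ ^ 2 * e₁ + x₁ * e₂
  have hA' : m ^ 2 - W.a₆ ≠ 0 := by
    rw [← e₃]
    exact mul_ne_zero (mul_ne_zero hx₁ hx₂) hx₃0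
  have hA : W.a₆ - m ^ 2 ≠ 0 := by
    intro h0
    exact hA' (by linear_combination -h0)
  have l₁ := line3 W.a₂ W.a₄ W.a₆ x₁ y₁ l m hx₁ h.rel E₁ L₁
  have l₂ := line3 W.a₂ W.a₄ W.a₆ x₂ y₂ l m hx₂ h.rel E₂ L₂
  have l₃ := line3 W.a₂ W.a₄ W.a₆ x₃ (-y₃) l m hx₃0 h.rel (by rw [neg_sq]; exact E₃) L₃
  have hX := R3A_X W.a₄ W.a₆ x₁ x₂ hx₁ hx₂ hx hpol
  have hS := R3A_sum W.a₂ W.a₄ W.a₆ l m x₁ x₂ x₃ hx₁ hx₂ hx₃0 h.rel e₁ e₂ e₃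
  obtain ⟨p₁, hp₁⟩ := R3A_phi h n₁ hx₁
  obtain ⟨p₂, hp₂⟩ := R3A_phi h n₂ hx₂
  obtain ⟨p₃, hp₃⟩ := R3A_phi h n₃ hx₃0
  rw [hsum, hp₁, hp₂, hp₃]
  obtain ⟨X₁, hX₁⟩ : ∃ X, X = x₁ + 2 * W.a₄ / x₁ + 4 * W.a₆ / x₁ ^ 2 := ⟨_, rfl⟩
  obtain ⟨X₂, hX₂⟩ : ∃ X, X = x₂ + 2 * W.a₄ / x₂ + 4 * W.a₆ / x₂ ^ 2 := ⟨_, rfl⟩
  obtain ⟨X₃, hX₃⟩ : ∃ X, X = x₃ + 2 * W.a₄ / x₃ + 4 * W.a₆ / x₃ ^ 2 := ⟨_, rfl⟩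
  obtain ⟨Z₁, hZ₁⟩ : ∃ Z, Z = 1 - 2 * W.a₄ / x₁ ^ 2 - 8 * W.a₆ / x₁ ^ 3 := ⟨_, rfl⟩
  obtain ⟨Z₂, hZ₂⟩ : ∃ Z, Z = 1 - 2 * W.a₄ / x₂ ^ 2 - 8 * W.a₆ / x₂ ^ 3 := ⟨_, rfl⟩
  obtain ⟨Z₃, hZ₃⟩ : ∃ Z, Z = 1 - 2 * W.a₄ / x₃ ^ 2 - 8 * W.a₆ / x₃ ^ 3 := ⟨_, rfl⟩
  simp only [← hX₁, ← hX₂, ← hX₃, ← hZ₁, ← hZ₂, ← hZ₃] at l₁ l₂ l₃ hX hS p₁ p₂ p₃ ⊢
  obtain ⟨B, hB⟩ : ∃ B, B = 3 * W.a₆ * l + l * m ^ 2 - 2 * W.a₄ * m := ⟨_, rfl⟩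
  obtain ⟨G, hG⟩ : ∃ G, G = -9 * W.a₆ * m + m ^ 3 + W.a₄ ^ 2 * l - 2 * W.a₂ * W.a₄ * m -
    4 * W.a₆ * l ^ 3 + 2 * W.a₄ * l ^ 2 * m := ⟨_, rfl⟩
  rw [← hB] at l₁ l₂ l₃ hS
  rw [← hG] at l₁ l₂ l₃
  obtain ⟨A, hAA⟩ : ∃ A, A = W.a₆ - m ^ 2 := ⟨_, rfl⟩
  rw [← hAA] at l₁ l₂ l₃ hS hA
  have hL : (-B / A) * (X₁ - X₂) = y₁ * Z₁ - y₂ * Z₂ := by
    rw [div_mul_eq_mul_div, div_eq_iff hA]
    linear_combination -l₁ + l₂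
  obtain ⟨q, hq⟩ := add_pt W' h.a₁' h.a₃' p₁ p₂ hX (-B / A) X₃ (y₃ * Z₃) hL
    (by rw [h.a₂']; linear_combination hS) (by
      have k : (-B / A) * A = -B := div_mul_cancel₀ _ hA
      apply mul_left_cancel₀ hA
      linear_combination -l₃ + l₁ + (X₃ - X₁) * k)
  rw [hq]

end Pool.Agent.Lib.MP_1a91b9_nuI
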