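import Pool.Agent.Lib.MP_1a91b9_nuI.Add

/-!
# The isogeny of degree 3: translation by the kernel, kernel, surjectivity
-/

set_option autoImplicit false

namespace Pool.Agent.Lib.MP_1a91b9_nuI

open WeierstrassCurve

variable {F : Type*} [Field F] [DecidableEq F] {W W' : WeierstrassCurve F}

omit [DecidableEq F] in
private theorem R3B_phi_zero (h : Rel3 W W') : phi3 h (0 : W.toAffine.Point) = 0 := rfl

omit [DecidableEq F] in
private theorem R3B_phi_some0 (h : Rel3 W W') {x y : F} (hP : W.toAffine.Nonsingular x y)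
    (hx : x = 0) : phi3 h (Affine.Point.some x y hP) = 0 := by
  exact dif_pos hx

omit [DecidableEq F] in
private theorem R3B_phi_some (h : Rel3 W W') {x y : F} (hP : W.toAffine.Nonsingular x y)
    (hx : x ≠ 0) : ∃ h', phi3 h (Affine.Point.some x y hP) =
      Affine.Point.some (x + 2 * W.a₄ / x + 4 * W.a₆ / x ^ 2)
        (y * (1 - 2 * W.a₄ / x ^ 2 - 8 * W.a₆ / x ^ 3)) h' := by
  refine ⟨?_, ?_⟩
  · rw [nons W' h.Δ' h.a₁' h.a₃', h.a₂', h.a₄', h.a₆']
    apply phi3_eqn _ _ _ _ _ hx h.rel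
    rw [nons W h.Δ h.a₁ h.a₃] at hP
    exact hP
  · exact dif_neg hx

omit [DecidableEq F] in
private theorem R3B_zero (P : W.toAffine.Point) (hP : xz W P) :
    P = 0 ∨ ∃ (t : F) (ht : W.toAffine.Nonsingular 0 t), P = Affine.Point.some 0 t ht := by
  rcases P with _ | ⟨x, y, hP'⟩
  · exact Or.inl rfl
  · right
    have hx : x = 0 := hP
    subst hx
    exact ⟨y, hP', rfl⟩

theorem phi3_xz (h : Rel3 W W') (P : W.toAffine.Point) : phi3 h P = 0 ↔ xz W P := by
  rcases P with _ | ⟨x, y, hP⟩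
  · exact ⟨fun _ => trivial, fun _ => rfl⟩
  · by_cases hx : x = 0
    · exact ⟨fun _ => hx, fun _ => R3B_phi_some0 h hP hx⟩
    · obtain ⟨h', e⟩ := R3B_phi_some h hP hx
      constructor
      · intro h0
        rw [e] at h0
        exact absurd h0 (Affine.Point.some_ne_zero _)
      · intro h0
        exact absurd h0 hx

omit [DecidableEq F] in
private theorem R3B_t (h : Rel3 W W') {t : F} (ht : W.toAffine.Nonsingular 0 t) :
    t ^ 2 = W.a₆ ∧ t ≠ 0 := by
  have h1 := (nons W h.Δ h.a₁ h.a₃ 0 t).1 ht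
  have h2 : t ^ 2 = W.a₆ := by linear_combination h1
  refine ⟨h2, ?_⟩
  rintro rfl
  apply h.c0
  rw [← h2]
  ring

omit [DecidableEq F] in
private theorem R3B_s (h : Rel3 W W') {t : F} (ht : W.toAffine.Nonsingular 0 t) :
    ∃ s : F, W.a₂ = s ^ 2 ∧ W.a₄ = 2 * s * t ∧ W.a₆ = t ^ 2 := by
  obtain ⟨h1, h2⟩ := R3B_t h ht
  have h3 := h.rel
  have h4 : (2 : F) * t ≠ 0 := mul_ne_zero h.two h2
  refine ⟨W.a₄ / (2 * t), ?_, ?_, h1.symm⟩
  · rw [div_pow, eq_div_iff (pow_ne_zero 2 h4)]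
    rw [← h1] at h3
    linear_combination h3
  · have h5 := h.two
    field_simp

private theorem R3B_dbl (h : Rel3 W W') {t : F} (ht : W.toAffine.Nonsingular 0 t) :
    Affine.Point.some 0 t ht + Affine.Point.some 0 t ht = -(Affine.Point.some 0 t ht) := by
  obtain ⟨s, e2, e4, e6⟩ := R3B_s h ht
  obtain ⟨_, ht0⟩ := R3B_t h ht
  obtain ⟨h', e⟩ := double_pt W h.a₁ h.a₃ h.two ht ht0 s 0 (-t)
    (by rw [e4]; ring) (by rw [e2]; ring) (by ring)
  obtain ⟨h'', e'⟩ := neg_pt W h.a₁ h.a₃ ht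
  rw [e, e']

theorem xz3_three (h : Rel3 W W') (P : W.toAffine.Point) (hP : xz W P) : P + P + P = 0 := by
  rcases R3B_zero P hP with rfl | ⟨t, ht, rfl⟩
  · rw [add_zero, add_zero]
  · rw [R3B_dbl h ht, neg_add_cancel]

omit [DecidableEq F] in
private theorem R3B_X (s t n x : F) (h2 : (2 : F) ≠ 0) (ht : t ≠ 0) (hx : x ≠ 0) (hn0 : n ≠ 0)
    (hn : x ^ 3 = n * (n + 2 * (s * x + t))) :
    (-2 * t * n / x ^ 2) + 2 * (2 * s * t) / (-2 * t * n / x ^ 2) +
      4 * t ^ 2 / (-2 * t * n / x ^ 2) ^ 2 = x + 2 * (2 * s * t) / x + 4 * t ^ 2 / x ^ 2 := by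
  have e1 : 2 * (2 * s * t) / (-2 * t * n / x ^ 2) = -2 * s * x ^ 2 / n := by
    field_simp
  have e2 : 4 * t ^ 2 / (-2 * t * n / x ^ 2) ^ 2 = x ^ 4 / n ^ 2 := by
    field_simp
    ring
  rw [e1, e2]
  have h4 : x ^ 4 = x * (n * (n + 2 * (s * x + t))) := by linear_combination x * hn
  have h6 : x ^ 6 = (n * (n + 2 * (s * x + t))) ^ 2 := by
    linear_combination (x ^ 3 + n * (n + 2 * (s * x + t))) * hn
  field_simp
  linear_combination h6 - 2 * s * n * h4 - n ^ 2 * hn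

omit [DecidableEq F] in
private theorem R3B_Y (s t n x : F) (h2 : (2 : F) ≠ 0) (ht : t ≠ 0) (hx : x ≠ 0) (hn0 : n ≠ 0)
    (hn : x ^ 3 = n * (n + 2 * (s * x + t))) :
    (t * n * (n - 2 * t) / x ^ 3) * (1 - 2 * (2 * s * t) / (-2 * t * n / x ^ 2) ^ 2 -
      8 * t ^ 2 / (-2 * t * n / x ^ 2) ^ 3) =
      (n + s * x + t) * (1 - 2 * (2 * s * t) / x ^ 2 - 8 * t ^ 2 / x ^ 3) := by
  have e1 : 2 * (2 * s * t) / (-2 * t * n / x ^ 2) ^ 2 = s * x ^ 4 / (t * n ^ 2) := by
    field_simp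
  have e2 : 8 * t ^ 2 / (-2 * t * n / x ^ 2) ^ 3 = - (x ^ 6 / (t * n ^ 3)) := by
    field_simp
    norm_num
  rw [e1, e2]
  have h4 : x ^ 4 = x * (n * (n + 2 * (s * x + t))) := by linear_combination x * hn
  have h6 : x ^ 6 = (n * (n + 2 * (s * x + t))) ^ 2 := by
    linear_combination (x ^ 3 + n * (n + 2 * (s * x + t))) * hn
  field_simp
  linear_combination (n - 2 * t) * h6 - (n - 2 * t) * s * n * h4 - (n + s * x + t) * n ^ 2 * hn

omit [DecidableEq F] in
private theorem R3B_some_eq {W : WeierstrassCurve F} {x y x' y' : F}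
    (h : W.toAffine.Nonsingular x y) (h' : W.toAffine.Nonsingular x' y') (e : x = x')
    (e' : y = y') : Affine.Point.some x y h = Affine.Point.some x' y' h' := by
  subst e
  subst e'
  rfl

theorem phi3_tr (h : Rel3 W W') (P Q : W.toAffine.Point) (hP : xz W P) :
    phi3 h (P + Q) = phi3 h P + phi3 h Q := by
  have hP0 : phi3 h P = 0 := (phi3_xz h P).2 hP
  rw [hP0, zero_add]
  rcases R3B_zero P hP with rfl | ⟨t, ht, rfl⟩
  · rw [zero_add]
  obtain ⟨s, e2, e4, e6⟩ := R3B_s h ht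
  obtain ⟨ht2, ht0⟩ := R3B_t h ht
  rcases Q with _ | ⟨x, y, hQ⟩
  · show phi3 h (Affine.Point.some 0 t ht + 0) = phi3 h 0
    rw [add_zero, hP0, R3B_phi_zero]
  by_cases hx : x = 0
  · subst hx
    rw [R3B_phi_some0 h hQ rfl]
    have hy2 := (R3B_t h hQ).1
    have h5 : (y - t) * (y + t) = 0 := by linear_combination hy2 - ht2
    rcases mul_eq_zero.1 h5 with h6 | h6
    · have h7 : y = t := sub_eq_zero.1 h6
      subst h7
      rw [R3B_dbl h ht]
      obtain ⟨h', e'⟩ := neg_pt W h.a₁ h.a₃ ht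
      rw [e']
      exact R3B_phi_some0 h h' rfl
    · have h7 : y = -t := by linear_combination h6
      subst h7
      obtain ⟨h', e'⟩ := neg_pt W h.a₁ h.a₃ ht
      have h8 : Affine.Point.some 0 (-t) hQ = -(Affine.Point.some 0 t ht) := by
        rw [e']
      rw [h8, add_neg_cancel, R3B_phi_zero]
  · have hxy := (nons W h.Δ h.a₁ h.a₃ x y).1 hQ
    rw [e2, e4, e6] at hxy
    obtain ⟨n, hn⟩ : ∃ n, n = y - (s * x + t) := ⟨_, rfl⟩
    have hy : y = n + s * x + t := by rw [hn]; ring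
    have hn' : x ^ 3 = n * (n + 2 * (s * x + t)) := by
      rw [hn]
      linear_combination -hxy
    have hn0 : n ≠ 0 := by
      intro h0
      rw [h0, zero_mul] at hn'
      exact hx (pow_eq_zero_iff (by norm_num) |>.1 hn')
    have hx3 : -2 * t * n / x ^ 2 ≠ 0 := by
      apply div_ne_zero _ (pow_ne_zero 2 hx)
      apply mul_ne_zero (mul_ne_zero _ ht0) hn0
      exact neg_ne_zero.2 h.two
    obtain ⟨h', e⟩ := add_pt W h.a₁ h.a₃ ht hQ (Ne.symm hx) ((y - t) / x) (-2 * t * n / x ^ 2)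
      (t * n * (n - 2 * t) / x ^ 3) (by field_simp; ring)
      (by
        rw [e2, hy]
        field_simp
        linear_combination hn')
      (by
        rw [hy]
        field_simp
        linear_combination t * hn')
    rw [e]
    obtain ⟨k1, r1⟩ := R3B_phi_some h h' hx3
    obtain ⟨k2, r2⟩ := R3B_phi_some h hQ hx
    rw [r1, r2]
    apply R3B_some_eq
    · rw [e4, e6]
      exact R3B_X s t n x h.two ht0 hx hn0 hn'
    · rw [e4, e6, hy]
      exact R3B_Y s t n x h.two ht0 hx hn0 hn'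

theorem phi3_surj [IsAlgClosed F] (h : Rel3 W W') : Function.Surjective (phi3 h) := by
  intro P'
  rcases P' with _ | ⟨X, Y, hP⟩
  · exact ⟨0, rfl⟩
  have hE := (nons W' h.Δ' h.a₁' h.a₃' X Y).1 hP
  rw [h.a₂', h.a₄', h.a₆'] at hE
  obtain ⟨x, hx⟩ : ∃ x : F, x ^ 3 - X * x ^ 2 + 2 * W.a₄ * x + 4 * W.a₆ = 0 := by
    have hdeg : (Polynomial.X ^ 3 + (Polynomial.C (-X) * Polynomial.X ^ 2 +
        Polynomial.C (2 * W.a₄) * Polynomial.X + Polynomial.C (4 * W.a₆)) :
        Polynomial F).degree ≠ 0 := by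
      have : (Polynomial.X ^ 3 + (Polynomial.C (-X) * Polynomial.X ^ 2 +
        Polynomial.C (2 * W.a₄) * Polynomial.X + Polynomial.C (4 * W.a₆)) :
        Polynomial F).degree = 3 := by
        rw [Polynomial.degree_add_eq_left_of_degree_lt]
        · simp
        · rw [Polynomial.degree_X_pow]
          exact lt_of_le_of_lt Polynomial.degree_quadratic_le (by norm_num)
      rw [this]
      norm_num
    obtain ⟨x, hx⟩ := IsAlgClosed.exists_root _ hdeg
    refine ⟨x, ?_⟩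
    simp only [Polynomial.IsRoot, Polynomial.eval_add, Polynomial.eval_pow, Polynomial.eval_X,
      Polynomial.eval_mul, Polynomial.eval_C] at hx
    linear_combination hx
  have h4 : (4 : F) ≠ 0 := by
    have h2 : (4 : F) = 2 ^ 2 := by norm_num
    rw [h2]
    exact pow_ne_zero 2 h.two
  have hx0 : x ≠ 0 := by
    rintro rfl
    apply mul_ne_zero h4 h.c0
    linear_combination hx
  obtain ⟨y, hy⟩ : ∃ y : F, y ^ 2 = x ^ 3 + W.a₂ * x ^ 2 + W.a₄ * x + W.a₆ :=
    IsAlgClosed.exists_pow_nat_eq _ (by norm_num)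
  have hX : X = x + 2 * W.a₄ / x + 4 * W.a₆ / x ^ 2 := by
    field_simp
    linear_combination -hx
  have key := phi3_eqn W.a₂ W.a₄ W.a₆ x y hx0 h.rel hy
  rw [← hX] at key
  have h5 : (y * (1 - 2 * W.a₄ / x ^ 2 - 8 * W.a₆ / x ^ 3) - Y) *
      (y * (1 - 2 * W.a₄ / x ^ 2 - 8 * W.a₆ / x ^ 3) + Y) = 0 := by
    linear_combination key - hE
  have hns : W.toAffine.Nonsingular x y := (nons W h.Δ h.a₁ h.a₃ x y).2 hy
  have hns' : W.toAffine.Nonsingular x (-y) := (nons W h.Δ h.a₁ h.a₃ x (-y)).2 (by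
    rw [neg_sq]
    exact hy)
  rcases mul_eq_zero.1 h5 with h6 | h6
  · refine ⟨Affine.Point.some x y hns, ?_⟩
    obtain ⟨k, r⟩ := R3B_phi_some h hns hx0
    rw [r]
    exact R3B_some_eq _ _ hX.symm (sub_eq_zero.1 h6)
  · refine ⟨Affine.Point.some x (-y) hns', ?_⟩
    obtain ⟨k, r⟩ := R3B_phi_some h hns' hx0
    rw [r]
    exact R3B_some_eq _ _ hX.symm (by linear_combination -h6)

end Pool.Agent.Lib.MP_1a91b9_nuI
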