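import Pool.Agent.Lib.MP_1a91b9_nuI.Ho.R2A
import Pool.Agent.Lib.MP_1a91b9_nuI.Ho.R2B
import Pool.Agent.Lib.MP_1a91b9_nuI.Ho.R3A
import Pool.Agent.Lib.MP_1a91b9_nuI.Ho.R3B
import Pool.Agent.Lib.MP_1a91b9_nuI.Ho.Inf
import Pool.Agent.Lib.MP_1a91b9_nt.VcPoint

/-!
# Isogenies

`Isg W W' n`: compatible homomorphisms `W(L) → W'(L)` for all the extensions `L` of the base field, whose
kernels are killed by `n`, surjective if `L` is algebraically closed.
-/

set_option autoImplicit false

namespace Pool.Agent.Lib.MP_1a91b9_nuI

open WeierstrassCurve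

universe u

/-- compatible homomorphisms on the points over all extensions -/
structure Isg {F : Type u} [Field F] (W W' : WeierstrassCurve F) (n : ℕ) where
  /-- the homomorphism over `L` -/
  f : ∀ (L : Type u) [Field L] [Algebra F L] [DecidableEq L],
    (Affine.baseChange W L).Point →+ (Affine.baseChange W' L).Point
  nat : ∀ (L L' : Type u) [Field L] [Algebra F L] [DecidableEq L] [Field L'] [Algebra F L']
    [DecidableEq L'] (i : L →ₐ[F] L') (P : (Affine.baseChange W L).Point),
    f L' (Affine.Point.map i P) = Affine.Point.map i (f L P)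
  ker : ∀ (L : Type u) [Field L] [Algebra F L] [DecidableEq L]
    (P : (Affine.baseChange W L).Point), f L P = 0 → n • P = 0
  surj : ∀ (L : Type u) [Field L] [Algebra F L] [DecidableEq L] [IsAlgClosed L],
    Function.Surjective (f L)
  fin : ∀ (L : Type u) [Field L] [Algebra F L] [DecidableEq L], {P | f L P = 0}.Finite

/-- a homomorphism with finite kernel has finite fibres -/
theorem fib_fin {A B : Type*} [AddCommGroup A] [AddCommGroup B] (f : A →+ B)
    (h : {P | f P = 0}.Finite) (Q : B) : {P | f P = Q}.Finite := by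
  by_cases hQ : ∃ P, f P = Q
  · obtain ⟨P, hP⟩ := hQ
    refine (h.image fun x => x + P).subset ?_
    intro x hx
    refine ⟨x - P, ?_, by simp⟩
    show f (x - P) = 0
    rw [map_sub, hP]
    exact sub_eq_zero.2 hx
  · refine Set.Finite.subset Set.finite_empty ?_
    intro x hx
    exact hQ ⟨x, hx⟩

namespace Isg

variable {F : Type u} [Field F] {W W' W'' : WeierstrassCurve F}

/-- composition -/
def comp {n m : ℕ} (a : Isg W W' n) (b : Isg W' W'' m) : Isg W W'' (n * m) where
  f := fun L _ _ _ => (b.f L).comp (a.f L)
  nat := fun L L' _ _ _ _ _ _ i P => by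
    simp only [AddMonoidHom.comp_apply, a.nat L L', b.nat L L']
  ker := fun L _ _ _ P h => by
    have h1 := b.ker L (a.f L P) h
    rw [← map_nsmul] at h1
    have h2 := a.ker L _ h1
    rwa [← mul_nsmul, mul_comm m n] at h2
  surj := fun L _ _ _ _ => (b.surj L).comp (a.surj L)
  fin := fun L _ _ _ => by
    have h1 : {P | ((b.f L).comp (a.f L)) P = 0} ⊆
        ⋃ Q ∈ {Q | b.f L Q = 0}, {P | a.f L P = Q} := by
      intro P hP
      exact Set.mem_biUnion (x := a.f L P) hP rfl
    exact ((b.fin L).biUnion fun Q _ => fib_fin (a.f L) (a.fin L) Q).subset h1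

end Isg

section change
variable {k : Type*} [Field k]

/-- the substitution on points, with a proof that `V = C • W` -/
def tp (W V : WeierstrassCurve k) (C : VariableChange k) (h : C • W = V) :
    V.toAffine.Point → W.toAffine.Point
  | .zero => .zero
  | .some x y hxy => .some (Pool.Agent.Lib.MP_1a91b9_nt.vcX C x)
      (Pool.Agent.Lib.MP_1a91b9_nt.vcY C x y) (by
        subst h
        exact (Pool.Agent.Lib.MP_1a91b9_nt.nonsingular_variableChange W C x y).1 hxy)

theorem tp_eq (W : WeierstrassCurve k) (C : VariableChange k) :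
    tp W (C • W) C rfl = Pool.Agent.Lib.MP_1a91b9_nt.vcFun W C := by
  funext P
  rcases P with _ | ⟨x, y, hP⟩
  · rfl
  · rfl

theorem tp_add [DecidableEq k] (W V : WeierstrassCurve k) (C : VariableChange k) (h : C • W = V)
    (P Q : V.toAffine.Point) : tp W V C h (P + Q) = tp W V C h P + tp W V C h Q := by
  subst h
  rw [tp_eq]
  exact Pool.Agent.Lib.MP_1a91b9_nt.vcFun_add W C P Q

theorem tp_bij (W V : WeierstrassCurve k) (C : VariableChange k) (h : C • W = V) :
    Function.Bijective (tp W V C h) := by
  subst h
  rw [tp_eq]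
  exact Pool.Agent.Lib.MP_1a91b9_nt.vcFun_bijective W C

theorem bc_change (W V : WeierstrassCurve k) (C : VariableChange k) (h : C • W = V) (L : Type*)
    [Field L] [Algebra k L] : C.map (algebraMap k L) • W.baseChange L = V.baseChange L := by
  rw [← h]
  exact map_variableChange W C (algebraMap k L)

end change

/-- a change of variables as an isogeny -/
def Isg.ofChange {F : Type u} [Field F] {W V : WeierstrassCurve F} (C : VariableChange F)
    (h : C • W = V) : Isg V W 1 where
  f := fun L _ _ _ => AddMonoidHom.mk' (tp (W.baseChange L) (V.baseChange L)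
    (C.map (algebraMap F L)) (bc_change W V C h L)) (tp_add _ _ _ _)
  nat := fun L L' _ _ _ _ _ _ i P => by
    rcases P with _ | ⟨x, y, hP⟩
    · rfl
    · have h1 : ∀ z : F, algebraMap F L' z = i (algebraMap F L z) := fun z => (i.commutes z).symm
      simp only [AddMonoidHom.mk'_apply, Affine.Point.map_some, tp, Affine.Point.some.injEq,
        Pool.Agent.Lib.MP_1a91b9_nt.vcX, Pool.Agent.Lib.MP_1a91b9_nt.vcY, VariableChange.map,
        Units.coe_map, MonoidHom.coe_coe, map_add, map_mul, map_pow, h1, and_self]
  ker := fun L _ _ _ P h0 => by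
    rw [one_nsmul]
    exact (tp_bij (W.baseChange L) (V.baseChange L) (C.map (algebraMap F L))
      (bc_change W V C h L)).1 h0
  surj := fun L _ _ _ _ => (tp_bij (W.baseChange L) (V.baseChange L) (C.map (algebraMap F L))
    (bc_change W V C h L)).2
  fin := fun L _ _ _ => by
    refine (Set.finite_singleton 0).subset fun P h0 => ?_
    have h1 : tp (W.baseChange L) (V.baseChange L) (C.map (algebraMap F L))
      (bc_change W V C h L) P = 0 := h0
    exact (tp_bij (W.baseChange L) (V.baseChange L) (C.map (algebraMap F L))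
      (bc_change W V C h L)).1 h1

/-- a change of variables as an isogeny, the other direction -/
def Isg.ofChange' {F : Type u} [Field F] {W V : WeierstrassCurve F} (C : VariableChange F)
    (h : C • W = V) : Isg W V 1 :=
  Isg.ofChange C⁻¹ (by rw [← h, inv_smul_smul])

end Pool.Agent.Lib.MP_1a91b9_nuI
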