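import Pool.Agent.Lib.MP_1a91b9_nuI.Add

/-!
# The isogeny of degree 2 is additive generically
-/

set_option autoImplicit false

namespace Pool.Agent.Lib.MP_1a91b9_nuI

open WeierstrassCurve

theorem line2 {F : Type*} [Field F] (a b x y l m : F) (hx : x ≠ 0) (hm : m ≠ 0)
    (h : y ^ 2 = x ^ 3 + a * x ^ 2 + b * x) (hy : y = l * x + m) :
    y * (1 - b / x ^ 2) = (l - b / m) * (x + a + b / x) + (m ^ 2 + b * l ^ 2 - a * l * m) / m := by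
  rw [hy] at h ⊢
  field_simp
  linear_combination (-b) * h

private theorem R2A_add {F : Type*} [Field F] [DecidableEq F] {W W' : WeierstrassCurve F}
    (h : Rel2 W W') {x₁ y₁ x₂ y₂ x₃ y₃ l m : F}
    (e₁ : y₁ ^ 2 = x₁ ^ 3 + W.a₂ * x₁ ^ 2 + W.a₄ * x₁)
    (e₂ : y₂ ^ 2 = x₂ ^ 3 + W.a₂ * x₂ ^ 2 + W.a₄ * x₂)
    (e₃ : y₃ ^ 2 = x₃ ^ 3 + W.a₂ * x₃ ^ 2 + W.a₄ * x₃)
    (h1 : x₁ ≠ 0) (h2 : x₂ ≠ 0) (h3 : x₃ ≠ 0) (h12 : x₁ ≠ x₂)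
    (l₁ : y₁ = l * x₁ + m) (l₂ : y₂ = l * x₂ + m) (l₃ : -y₃ = l * x₃ + m)
    (hx₃ : x₃ = l ^ 2 - W.a₂ - x₁ - x₂) (hb : x₁ * x₂ ≠ W.a₄)
    (H₁ : W'.toAffine.Nonsingular (x₁ + W.a₂ + W.a₄ / x₁) (y₁ * (1 - W.a₄ / x₁ ^ 2)))
    (H₂ : W'.toAffine.Nonsingular (x₂ + W.a₂ + W.a₄ / x₂) (y₂ * (1 - W.a₄ / x₂ ^ 2)))
    (H₃ : W'.toAffine.Nonsingular (x₃ + W.a₂ + W.a₄ / x₃) (y₃ * (1 - W.a₄ / x₃ ^ 2))) :
    Affine.Point.some _ _ H₁ + Affine.Point.some _ _ H₂ = Affine.Point.some _ _ H₃ := by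
  obtain ⟨a, ha⟩ : ∃ a, a = W.a₂ := ⟨_, rfl⟩
  obtain ⟨b, hbb⟩ : ∃ b, b = W.a₄ := ⟨_, rfl⟩
  have h0 : x₁ - x₂ ≠ 0 := sub_ne_zero.2 h12
  -- the symmetric functions
  have s2 : x₁ * x₂ + x₁ * x₃ + x₂ * x₃ = b - 2 * l * m := by
    have h4 : x₁ ^ 2 + x₁ * x₂ + x₂ ^ 2 + a * (x₁ + x₂) + b = l ^ 2 * (x₁ + x₂) + 2 * l * m := by
      apply mul_left_cancel₀ h0
      rw [l₁] at e₁
      rw [l₂] at e₂
      rw [ha, hbb]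
      linear_combination e₂ - e₁
    rw [hx₃, ← ha]
    linear_combination -h4
  have s3 : x₁ * x₂ * x₃ = m ^ 2 := by
    rw [l₁] at e₁
    rw [← ha, ← hbb] at e₁
    rw [← ha] at hx₃
    have h4 : x₁ + x₂ + x₃ = l ^ 2 - a := by rw [hx₃]; ring
    linear_combination x₁ * s2 - x₁ ^ 2 * h4 - e₁
  have hm : m ≠ 0 := by
    intro h4
    rw [h4] at s3
    have h5 : x₁ * x₂ * x₃ ≠ 0 := mul_ne_zero (mul_ne_zero h1 h2) h3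
    apply h5
    rw [s3]
    ring
  rw [← ha, ← hbb] at e₁ e₂ e₃
  have k₁ := line2 a b x₁ y₁ l m h1 hm e₁ l₁
  have k₂ := line2 a b x₂ y₂ l m h2 hm e₂ l₂
  have k₃ := line2 a b x₃ (-y₃) l m h3 hm (by rw [neg_sq]; exact e₃) l₃
  rw [← hbb] at hb
  have hX : x₁ + a + b / x₁ ≠ x₂ + a + b / x₂ := by
    intro h4
    have h5 : (x₁ - x₂) * (x₁ * x₂ - b) = 0 := by
      field_simp at h4
      linear_combination h4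
    rcases mul_eq_zero.1 h5 with h6 | h6
    · exact h0 h6
    · exact hb (sub_eq_zero.1 h6)
  have hs : (x₁ + a + b / x₁) + (x₂ + a + b / x₂) + (x₃ + a + b / x₃) = (l - b / m) ^ 2 + 2 * a := by
    have h4 : b / x₁ + b / x₂ + b / x₃ = b * (b - 2 * l * m) / m ^ 2 := by
      rw [← s2, ← s3]
      field_simp
      ring
    have h5 : (l - b / m) ^ 2 = l ^ 2 + b * (b - 2 * l * m) / m ^ 2 := by
      field_simp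
      ring
    rw [h5, ← h4]
    rw [← ha] at hx₃
    linear_combination hx₃
  subst ha
  subst hbb
  obtain ⟨H, hH⟩ := add_pt W' h.a₁' h.a₃' H₁ H₂ hX (l - W.a₄ / m)
    (x₃ + W.a₂ + W.a₄ / x₃) (y₃ * (1 - W.a₄ / x₃ ^ 2))
    (by rw [k₁, k₂]; ring)
    (by rw [h.a₂']; linear_combination hs)
    (by rw [k₁]; linear_combination -k₃)
  exact hH

theorem phi2_gen {F : Type*} [Field F] [DecidableEq F] {W W' : WeierstrassCurve F}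
    (h : Rel2 W W') (P Q : W.toAffine.Point) (hP : ¬ xz W P) (hQ : ¬ xz W Q)
    (hPQ : ¬ xz W (P + Q)) (hPQ' : ¬ xz W (P - Q)) :
    phi2 h (P + Q) = phi2 h P + phi2 h Q := by
  rcases P with _ | ⟨x₁, y₁, h₁⟩
  · exact absurd trivial hP
  rcases Q with _ | ⟨x₂, y₂, h₂⟩
  · exact absurd trivial hQ
  have h1 : x₁ ≠ 0 := hP
  have h2 : x₂ ≠ 0 := hQ
  have e₁ : y₁ ^ 2 = x₁ ^ 3 + W.a₂ * x₁ ^ 2 + W.a₄ * x₁ := by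
    have h4 := (nons W h.Δ h.a₁ h.a₃ x₁ y₁).1 h₁
    rw [h.a₆, add_zero] at h4
    exact h4
  have e₂ : y₂ ^ 2 = x₂ ^ 3 + W.a₂ * x₂ ^ 2 + W.a₄ * x₂ := by
    have h4 := (nons W h.Δ h.a₁ h.a₃ x₂ y₂).1 h₂
    rw [h.a₆, add_zero] at h4
    exact h4
  obtain ⟨hn, hneg⟩ := neg_pt W h.a₁ h.a₃ h₂
  have h12 : x₁ ≠ x₂ := by
    intro h4
    subst h4
    have h5 : (y₁ - y₂) * (y₁ + y₂) = 0 := by linear_combination e₁ - e₂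
    rcases mul_eq_zero.1 h5 with h6 | h6
    · have h7 : y₁ = y₂ := sub_eq_zero.1 h6
      subst h7
      apply hPQ'
      rw [sub_self]
      exact xz_zero W
    · have h7 : y₁ = -y₂ := eq_neg_of_add_eq_zero_left h6
      apply hPQ
      have h8 : Affine.Point.some x₁ y₁ h₁ = -(Affine.Point.some x₁ y₂ h₂) := by
        rw [hneg]
        simp only [h7]
      rw [h8, neg_add_cancel]
      exact xz_zero W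
  have h0 : x₁ - x₂ ≠ 0 := sub_ne_zero.2 h12
  obtain ⟨l, hl⟩ : ∃ l, l = (y₁ - y₂) / (x₁ - x₂) := ⟨_, rfl⟩
  have hl' : l * (x₁ - x₂) = y₁ - y₂ := by rw [hl, div_mul_cancel₀ _ h0]
  obtain ⟨m, hm⟩ : ∃ m, m = y₁ - l * x₁ := ⟨_, rfl⟩
  obtain ⟨x₃, hx₃⟩ : ∃ x₃, x₃ = l ^ 2 - W.a₂ - x₁ - x₂ := ⟨_, rfl⟩
  obtain ⟨y₃, hy₃⟩ : ∃ y₃, y₃ = -(l * (x₃ - x₁) + y₁) := ⟨_, rfl⟩
  obtain ⟨h₃, hadd⟩ := add_pt W h.a₁ h.a₃ h₁ h₂ h12 l x₃ y₃ hl' hx₃ hy₃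
  have h3 : x₃ ≠ 0 := by
    rw [hadd] at hPQ
    exact hPQ
  have e₃ : y₃ ^ 2 = x₃ ^ 3 + W.a₂ * x₃ ^ 2 + W.a₄ * x₃ := by
    have h4 := (nons W h.Δ h.a₁ h.a₃ x₃ y₃).1 h₃
    rw [h.a₆, add_zero] at h4
    exact h4
  -- `P - Q`
  obtain ⟨l', hl2⟩ : ∃ l', l' = (y₁ + y₂) / (x₁ - x₂) := ⟨_, rfl⟩
  have hl2' : l' * (x₁ - x₂) = y₁ - -y₂ := by rw [hl2, div_mul_cancel₀ _ h0, sub_neg_eq_add]
  obtain ⟨x₄, hx₄⟩ : ∃ x₄, x₄ = l' ^ 2 - W.a₂ - x₁ - x₂ := ⟨_, rfl⟩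
  obtain ⟨h₄, hsub⟩ := add_pt W h.a₁ h.a₃ h₁ hn h12 l' x₄ _ hl2' hx₄ rfl
  have h4 : x₄ ≠ 0 := by
    rw [sub_eq_add_neg, hneg, hsub] at hPQ'
    exact hPQ'
  have hb : x₁ * x₂ ≠ W.a₄ := by
    intro h5
    have h6 := prod_formula W.a₂ W.a₄ 0 x₁ x₂ y₁ y₂ h12 (by rw [add_zero]; exact e₁)
      (by rw [add_zero]; exact e₂)
    rw [← hl, ← hl2, ← hx₃, ← hx₄] at h6
    have h7 : x₃ * x₄ * (x₁ - x₂) ^ 2 ≠ 0 := mul_ne_zero (mul_ne_zero h3 h4) (pow_ne_zero 2 h0)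
    apply h7
    rw [h6, ← h5]
    ring
  rw [hadd]
  have f₁ : phi2 h (Affine.Point.some x₁ y₁ h₁) =
      Affine.Point.some (x₁ + W.a₂ + W.a₄ / x₁) (y₁ * (1 - W.a₄ / x₁ ^ 2)) (by
        rw [nons W' h.Δ' h.a₁' h.a₃', h.a₂', h.a₄', h.a₆', add_zero]
        exact phi2_eqn _ _ _ _ h1 e₁) := by
    simp only [phi2, dif_neg h1]
  have f₂ : phi2 h (Affine.Point.some x₂ y₂ h₂) =
      Affine.Point.some (x₂ + W.a₂ + W.a₄ / x₂) (y₂ * (1 - W.a₄ / x₂ ^ 2)) (by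
        rw [nons W' h.Δ' h.a₁' h.a₃', h.a₂', h.a₄', h.a₆', add_zero]
        exact phi2_eqn _ _ _ _ h2 e₂) := by
    simp only [phi2, dif_neg h2]
  have f₃ : phi2 h (Affine.Point.some x₃ y₃ h₃) =
      Affine.Point.some (x₃ + W.a₂ + W.a₄ / x₃) (y₃ * (1 - W.a₄ / x₃ ^ 2)) (by
        rw [nons W' h.Δ' h.a₁' h.a₃', h.a₂', h.a₄', h.a₆', add_zero]
        exact phi2_eqn _ _ _ _ h3 e₃) := by
    simp only [phi2, dif_neg h3]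
  rw [f₁, f₂, f₃]
  symm
  exact R2A_add h e₁ e₂ e₃ h1 h2 h3 h12 (l := l) (m := m) (by rw [hm]; ring)
    (by rw [hm]; linear_combination hl') (by rw [hm, hy₃]; ring) hx₃ hb _ _ _

end Pool.Agent.Lib.MP_1a91b9_nuI
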